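import Pool.Agent.H31.DP.Targets

/-!
Module F1 of the project DP: every order, the correlation is close to its mean along an arithmetic
progression.
-/

set_option autoImplicit false

open Finset Filter Topology

namespace Pool.Agent.H42.DP

open Pool.Agent.H31.DP

theorem ee_norm (x : ℝ) : ‖ee x‖ = 1 := by
  unfold ee
  have h : (2 * (Real.pi : ℂ) * Complex.I * (x : ℂ)) = ((2 * Real.pi * x : ℝ) : ℂ) * Complex.I := by
    push_cast
    ring
  rw [h, Complex.norm_exp_ofReal_mul_I]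

theorem fm_abs {r : ℕ} (β : Fin r → ℤ) (δ : Fin r → ℕ) (n : ℕ) : |fm β δ n| ≤ 1 := by
  unfold fm
  rw [Finset.abs_prod]
  refine Finset.prod_le_one (fun i _ => abs_nonneg _) fun i _ => ?_
  rw [abs_pow]
  refine pow_le_one₀ (abs_nonneg _) ?_
  have h := ArithmeticFunction.abs_moebius_le_one (n := (((n : ℤ) + β i).toNat))
  rw [← Int.cast_abs]
  exact_mod_cast h

theorem avg_norm (J : ℕ) (hJ : 0 < J) (g : ℕ → ℝ) :
    ‖1 - (∑ j ∈ Finset.Icc 1 J, ee (g j)) / (J : ℂ)‖ ≤ 2 := by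
  have hJ' : (0 : ℝ) < J := by exact_mod_cast hJ
  have h1 : ‖∑ j ∈ Finset.Icc 1 J, ee (g j)‖ ≤ J := by
    refine (norm_sum_le _ _).trans ?_
    rw [Finset.sum_congr rfl fun j _ => ee_norm (g j), Finset.sum_const, Nat.card_Icc]
    simp
  have h2 : ‖(∑ j ∈ Finset.Icc 1 J, ee (g j)) / (J : ℂ)‖ ≤ 1 := by
    rw [norm_div, Complex.norm_natCast]
    exact (div_le_one hJ').2 h1
  calc ‖1 - (∑ j ∈ Finset.Icc 1 J, ee (g j)) / (J : ℂ)‖
      ≤ ‖(1 : ℂ)‖ + ‖(∑ j ∈ Finset.Icc 1 J, ee (g j)) / (J : ℂ)‖ := norm_sub_le _ _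
    _ ≤ 1 + 1 := by
        rw [norm_one]
        linarith
    _ = 2 := by norm_num

theorem pf_F1 (hTM : StatementTM) (hPV : StatementPV) (hUH : StatementUH) : StatementF1 := by
  classical
  intro r β δ η ρ hδ hη hρ
  set e1 : ℝ := Real.sqrt (η ^ 3) / 2 with he1
  have he1p : 0 < e1 := by
    have := Real.sqrt_pos.2 (pow_pos hη 3)
    positivity
  have he1s : e1 ^ 2 < η ^ 3 := by
    have h1 : e1 ^ 2 = η ^ 3 / 4 := by
      rw [he1, div_pow, Real.sq_sqrt (pow_pos hη 3).le]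
      norm_num
    rw [h1]
    linarith [pow_pos hη 3]
  obtain ⟨K1, hK1⟩ := hTM r β δ (e1 / 16) (ρ / 4) hδ (by positivity) (by positivity)
  set q : ℕ := K1.factorial with hq
  have hq0 : 0 < q := Nat.factorial_pos _
  have hqd : ∀ q' : ℕ, 1 ≤ q' → q' ≤ K1 → q' ∣ q := fun q' h1 h2 => Nat.dvd_factorial h1 h2
  set L : ℕ := ⌈(2 * Real.pi * K1 * q + 4 * q) * 2 / e1⌉₊ + 1 with hL
  have hL0 : 0 < L := Nat.succ_pos _
  have hLr : (2 * Real.pi * K1 * q + 4 * q) * 2 / e1 ≤ L := by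
    refine (Nat.le_ceil _).trans ?_
    rw [hL]
    push_cast
    linarith
  have hLr' : (2 * Real.pi * K1 * q + 4 * q) * 2 ≤ L * e1 := by
    rwa [div_le_iff₀ he1p] at hLr
  set H : ℝ := ∑ N ∈ Finset.Icc 1 L, (1 / (N : ℝ)) with hH
  have hH0 : 0 ≤ H := Finset.sum_nonneg fun N _ => by positivity
  set K2 : ℕ := ⌈Real.exp (2 * H / ρ)⌉₊ with hK2
  refine ⟨q, L, max K1 K2, hq0, hL0, ?_⟩
  intro x y hx hxy
  have hx' : (0 : ℝ) < x := by exact_mod_cast hx
  have hxy1 : K1 * x ≤ y := (Nat.mul_le_mul_right _ (le_max_left _ _)).trans hxy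
  have hxy2 : K2 * x ≤ y := (Nat.mul_le_mul_right _ (le_max_right _ _)).trans hxy
  -- the small scales
  have hsmall : H ≤ ρ / 2 * Real.log ((y : ℝ) / x) := by
    have h1 : Real.exp (2 * H / ρ) ≤ (y : ℝ) / x := by
      rw [le_div_iff₀ hx']
      have h2 : (K2 : ℝ) * x ≤ y := by exact_mod_cast hxy2
      refine le_trans ?_ h2
      exact mul_le_mul_of_nonneg_right (Nat.le_ceil _) hx'.le
    have h3 : 2 * H / ρ ≤ Real.log ((y : ℝ) / x) := by
      rw [← Real.log_exp (2 * H / ρ)]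
      exact Real.log_le_log (Real.exp_pos _) h1
    calc H = ρ / 2 * (2 * H / ρ) := by field_simp
      _ ≤ ρ / 2 * Real.log ((y : ℝ) / x) := mul_le_mul_of_nonneg_left h3 (by positivity)
  -- the scales which are bad for `TM`
  set B : ℕ → Prop := fun N => ∃ θ : ℝ, Minor K1 N θ ∧ e1 / 16 * N < ‖Sm β δ N θ‖ with hB
  have hTM' : ∑ N ∈ (Finset.Icc x y).filter (fun N : ℕ => B (2 * N)), (1 / (N : ℝ)) ≤
      ρ / 2 * Real.log ((y : ℝ) / x) := by
    have h1 := hK1 (2 * x) (2 * y) (by omega) (by linarith)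
    have h2 : Real.log (((2 * y : ℕ) : ℝ) / ((2 * x : ℕ) : ℝ)) = Real.log ((y : ℝ) / x) := by
      congr 1
      push_cast
      rw [mul_div_mul_left _ _ (two_ne_zero)]
    rw [h2] at h1
    have h3 : ∑ N ∈ (Finset.Icc x y).filter (fun N : ℕ => B (2 * N)), (1 / ((2 * N : ℕ) : ℝ)) ≤
        ∑ N ∈ (Finset.Icc (2 * x) (2 * y)).filter B, (1 / (N : ℝ)) := by
      rw [← Finset.sum_image (f := fun N : ℕ => (1 / (N : ℝ))) (g := fun N : ℕ => 2 * N)
        (s := (Finset.Icc x y).filter (fun N : ℕ => B (2 * N)))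
        (fun a _ b _ hab => by
          have hab' : 2 * a = 2 * b := hab
          omega)]
      refine Finset.sum_le_sum_of_subset_of_nonneg ?_ fun N _ _ => by positivity
      intro N hN
      obtain ⟨N', hN', rfl⟩ := Finset.mem_image.1 hN
      obtain ⟨h4, h5⟩ := Finset.mem_filter.1 hN'
      rw [Finset.mem_Icc] at h4
      refine Finset.mem_filter.2 ⟨Finset.mem_Icc.2 ⟨by omega, by omega⟩, h5⟩
    have h4 : ∑ N ∈ (Finset.Icc x y).filter (fun N : ℕ => B (2 * N)), (1 / (N : ℝ)) =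
        2 * ∑ N ∈ (Finset.Icc x y).filter (fun N : ℕ => B (2 * N)), (1 / ((2 * N : ℕ) : ℝ)) := by
      rw [Finset.mul_sum]
      refine Finset.sum_congr rfl fun N _ => ?_
      push_cast
      rw [mul_one_div, ← div_div, div_self (two_ne_zero)]
    rw [h4]
    linarith
  -- the good scales
  have hgood : ∀ N : ℕ, 0 < N → ¬ (N < L) → ¬ B (2 * N) → ¬ ∃ F : ℕ → ℂ, (∀ n, ‖F n‖ ≤ 1) ∧
        η * N < (((Finset.Icc 1 N).filter (fun t : ℕ => η * N <
          ‖∑ n ∈ Finset.Icc 1 N, F n * ((fm β δ (n + t) -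
            (∑ j ∈ Finset.Icc 1 (N / L), fm β δ (n + t + q * j)) / (N / L : ℕ) : ℝ) : ℂ)‖)).card : ℝ) := by
    rintro N hN0 hNL hBN ⟨F, hF, hcard⟩
    have hN0' : (0 : ℝ) < N := by exact_mod_cast hN0
    have hJ : 0 < N / L := Nat.div_pos (not_lt.1 hNL) hL0
    have hJN : ((N / L : ℕ) : ℝ) * L ≤ N := by exact_mod_cast Nat.div_mul_le_self N L
    set J : ℕ := N / L with hJdef
    have hJ' : (0 : ℝ) < J := by exact_mod_cast hJ
    set f : ℕ → ℂ := fun m => ((fm β δ m : ℝ) : ℂ) with hf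
    have hf1 : ∀ m, ‖f m‖ ≤ 1 := fun m => by
      rw [hf]
      simp only [Complex.norm_real, Real.norm_eq_abs]
      exact fm_abs β δ m
    set u : ℕ → ℂ := fun m => ((fm β δ m -
      (∑ j ∈ Finset.Icc 1 J, fm β δ (m + q * j)) / (J : ℝ) : ℝ) : ℂ) with hu
    have huf : ∀ m, u m = f m - (∑ j ∈ Finset.Icc 1 J, f (m + q * j)) / J := by
      intro m
      rw [hu, hf]
      push_cast
      rfl
    -- the bound for `2 q J`
    have hqJ : 2 * (q : ℝ) * J ≤ e1 / 4 * N := by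
      have h1 : (4 * (q : ℝ)) * 2 ≤ L * e1 := by
        have : (0 : ℝ) ≤ 2 * Real.pi * K1 * q := by positivity
        linarith
      have h2 : (4 * (q : ℝ)) * 2 * J ≤ L * e1 * J := mul_le_mul_of_nonneg_right h1 hJ'.le
      have h3 : L * e1 * J ≤ e1 * N := by
        calc L * e1 * J = e1 * (J * L) := by ring
          _ ≤ e1 * N := mul_le_mul_of_nonneg_left hJN he1p.le
      linarith
    have hKJ : 2 * Real.pi * K1 * q * J ≤ e1 / 2 * N := by
      have h1 : (2 * Real.pi * K1 * q) * 2 ≤ L * e1 := by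
        have : (0 : ℝ) ≤ 4 * (q : ℝ) := by positivity
        linarith
      have h2 : (2 * Real.pi * K1 * q) * 2 * J ≤ L * e1 * J := mul_le_mul_of_nonneg_right h1 hJ'.le
      have h3 : L * e1 * J ≤ e1 * N := by
        calc L * e1 * J = e1 * (J * L) := by ring
          _ ≤ e1 * N := mul_le_mul_of_nonneg_left hJN he1p.le
      linarith
    have hfour : ∀ θ : ℝ, ‖∑ m ∈ Finset.Icc 1 (2 * N), u m * ee (m * θ)‖ ≤ e1 * N := by
      intro θ
      have h1 := hUH.1 f N q J θ hf1 hJ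
      have h2 : ∑ m ∈ Finset.Icc 1 (2 * N), u m * ee (m * θ) =
          ∑ m ∈ Finset.Icc 1 (2 * N),
            (f m - (∑ j ∈ Finset.Icc 1 J, f (m + q * j)) / J) * ee (m * θ) :=
        Finset.sum_congr rfl fun m _ => by rw [huf]
      rw [h2]
      refine h1.trans ?_
      by_cases hm : Minor K1 (2 * N) θ
      · have h3 : ‖∑ m ∈ Finset.Icc 1 (2 * N), f m * ee (m * θ)‖ ≤ e1 / 16 * ((2 * N : ℕ) : ℝ) := by
          by_contra hcon
          exact hBN ⟨θ, hm, not_le.1 hcon⟩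
        have h4 := avg_norm J hJ fun j => -(q * j * θ)
        have h5 : ‖∑ m ∈ Finset.Icc 1 (2 * N), f m * ee (m * θ)‖ *
            ‖1 - (∑ j ∈ Finset.Icc 1 J, ee (-(q * j * θ))) / J‖ ≤
            e1 / 16 * ((2 * N : ℕ) : ℝ) * 2 :=
          mul_le_mul h3 h4 (norm_nonneg _) (by positivity)
        push_cast at h5
        have h6 : 0 < e1 * N := by positivity
        linarith
      · have h3 : ‖∑ m ∈ Finset.Icc 1 (2 * N), f m * ee (m * θ)‖ ≤ 2 * N := by
          refine (norm_sum_le _ _).trans ?_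
          refine (Finset.sum_le_sum (g := fun _ => (1 : ℝ)) fun m _ => ?_).trans ?_
          · rw [norm_mul, ee_norm, mul_one]
            exact hf1 m
          · rw [Finset.sum_const, Nat.card_Icc]
            simp
        have h4 := hUH.2 K1 N q J θ hqd hN0 hJ hm
        have h5 : ‖∑ m ∈ Finset.Icc 1 (2 * N), f m * ee (m * θ)‖ *
            ‖1 - (∑ j ∈ Finset.Icc 1 J, ee (-(q * j * θ))) / J‖ ≤
            2 * N * (Real.pi * J * q * K1 / N) :=
          mul_le_mul h3 h4 (norm_nonneg _) (by positivity)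
        have h6 : 2 * N * (Real.pi * J * q * K1 / N) = 2 * Real.pi * K1 * q * J := by
          field_simp
        rw [h6] at h5
        have h7 : 0 < e1 * N := by positivity
        linarith
    have hpv := hPV F u N (e1 * N) hF hfour
    -- counting
    set T := (Finset.Icc 1 N).filter (fun t : ℕ => η * N <
          ‖∑ n ∈ Finset.Icc 1 N, F n * ((fm β δ (n + t) -
            (∑ j ∈ Finset.Icc 1 J, fm β δ (n + t + q * j)) / (J : ℕ) : ℝ) : ℂ)‖) with hT
    have h1 : (T.card : ℝ) * (η * N) ^ 2 ≤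
        ∑ t ∈ Finset.Icc 1 N, ‖∑ n ∈ Finset.Icc 1 N, F n * u (n + t)‖ ^ 2 := by
      calc (T.card : ℝ) * (η * N) ^ 2 = ∑ t ∈ T, (η * N) ^ 2 := by
            rw [Finset.sum_const, nsmul_eq_mul]
        _ ≤ ∑ t ∈ T, ‖∑ n ∈ Finset.Icc 1 N, F n * u (n + t)‖ ^ 2 := by
            refine Finset.sum_le_sum fun t ht => ?_
            have h2 := (Finset.mem_filter.1 ht).2
            exact pow_le_pow_left₀ (by positivity) h2.le 2
        _ ≤ _ := Finset.sum_le_sum_of_subset_of_nonneg (Finset.filter_subset _ _)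
            fun t _ _ => by positivity
    have h2 : (T.card : ℝ) * (η * N) ^ 2 ≤ N * (e1 * N) ^ 2 := h1.trans hpv
    have h3 : η * N * (η * N) ^ 2 < N * (e1 * N) ^ 2 :=
      lt_of_lt_of_le (mul_lt_mul_of_pos_right hcard (by positivity)) h2
    have h4 : η ^ 3 * (N : ℝ) ^ 3 < e1 ^ 2 * (N : ℝ) ^ 3 := by
      calc η ^ 3 * (N : ℝ) ^ 3 = η * N * (η * N) ^ 2 := by ring
        _ < N * (e1 * N) ^ 2 := h3
        _ = e1 ^ 2 * (N : ℝ) ^ 3 := by ring
    have h5 : (0 : ℝ) < (N : ℝ) ^ 3 := by positivity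
    have h6 := lt_of_mul_lt_mul_right h4 h5.le
    linarith
  -- conclusion
  have hsub : (Finset.Icc x y).filter (fun N : ℕ => ∃ F : ℕ → ℂ, (∀ n, ‖F n‖ ≤ 1) ∧
        η * N < (((Finset.Icc 1 N).filter (fun t : ℕ => η * N <
          ‖∑ n ∈ Finset.Icc 1 N, F n * ((fm β δ (n + t) -
            (∑ j ∈ Finset.Icc 1 (N / L), fm β δ (n + t + q * j)) / (N / L : ℕ) : ℝ) : ℂ)‖)).card : ℝ))
      ⊆ Finset.Icc 1 L ∪ (Finset.Icc x y).filter (fun N : ℕ => B (2 * N)) := by
    intro N hN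
    obtain ⟨h1, h2⟩ := Finset.mem_filter.1 hN
    have h1' := Finset.mem_Icc.1 h1
    have hN0 : 0 < N := lt_of_lt_of_le hx h1'.1
    by_cases hNL : N < L
    · exact Finset.mem_union_left _ (Finset.mem_Icc.2 ⟨hN0, hNL.le⟩)
    · refine Finset.mem_union_right _ (Finset.mem_filter.2 ⟨h1, ?_⟩)
      by_contra hBN
      exact hgood N hN0 hNL hBN h2
  refine (Finset.sum_le_sum_of_subset_of_nonneg hsub fun N _ _ => by positivity).trans ?_
  have hun : ∑ N ∈ Finset.Icc 1 L ∪ (Finset.Icc x y).filter (fun N : ℕ => B (2 * N)),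
      (1 / (N : ℝ)) ≤ H + ∑ N ∈ (Finset.Icc x y).filter (fun N : ℕ => B (2 * N)), (1 / (N : ℝ)) := by
    have h1 := Finset.sum_union_inter (s₁ := Finset.Icc 1 L)
      (s₂ := (Finset.Icc x y).filter (fun N : ℕ => B (2 * N))) (f := fun N : ℕ => (1 / (N : ℝ)))
    have h2 : 0 ≤ ∑ N ∈ Finset.Icc 1 L ∩ (Finset.Icc x y).filter (fun N : ℕ => B (2 * N)),
        (1 / (N : ℝ)) := Finset.sum_nonneg fun N _ => by positivity
    linarith
  linarith

end Pool.Agent.H42.DP
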